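import Pool.Agent.U863.CG.Nec

/-! # MP_d26ff6_al: elementary type and edge-coloured graphs

Let `Γ` be a finite graph with vertex set `V` whose edges are coloured in such a way that edges with
a common vertex have different colours (`ProperColouring`; colours may be repeated otherwise).  Its
structure (`colourStructure`) has `G = (Z/2)^V`, `-1 = 1`, and `q(a,b)` is the sum over all edges
`ij` of `(a_i b_j + a_j b_i)` times the basis vector of the colour of `ij`.

Theorem.  A quaternionic structure with `-1 = 1` is of elementary type if and only if it is
isomorphic to the structure of a finite properly edge-coloured graph.  In particular the elementary
type conjecture holds for all structures of such graphs.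

Outline.  Linkage of the structure of a graph forces: if `ij` and `kl` are two edges of the same
colour, then no vertex of one is joined to a vertex of the other (`no_edge`), and every vertex
`m ≠ j` which is joined to `i` is joined to `k` and `l` (`twin`); if `ij`, `jm` are edges and `i`,
`m` are not joined, then `ij` is the only edge of its colour (`unique`); and there is no induced
path with three edges and no induced cycle of length four (`no_path`).  Hence a vertex of maximal
degree is joined to all vertices of its component (`dominate`), and the structure is a group
extension, a direct product, or has at most one quaternion different from zero.  Conversely direct
products are disjoint unions, group extensions are cones with new colours, and local types are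
matchings of one colour by the normal form of alternating forms over the field with two elements. -/

set_option autoImplicit false

namespace Pool.Agent.Results.MP_d26ff6_al.ColouredGraphs

open Pool.Agent.H315R3.ETC Pool.Agent.U863.CG

theorem result (S : QData) (hS : IsQuat S) (hn : S.neg = 1) :
    Elem S ↔ ∃ (V K : Type) (_ : Fintype V) (c : V → V → Option K),
      ProperColouring c ∧ Iso S (colourStructure c) :=
  elem_iff_colour hS hn

end Pool.Agent.Results.MP_d26ff6_al.ColouredGraphs
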