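import Pool.Agent.U863.NS.Count

/-! # MP_d26ff6_al: a quaternion with few non-slots

Let `S = (G, -1, q)` be a finite quaternionic structure and let `t ≠ 0` be an element of `Q`.  A
slot of `t` is an `a` with `t = q(a,b)` for some `b`; the element `1` is never a slot.

Theorem.  If at most six elements of `G` are not slots of `t`, then `S` is of elementary type.

Outline.  Let `B` be the set of elements which are not slots of `t`, let `c` be in `G`, and let
`V(a) = {b : q(a,b) = 0}`.  If `a` and `ac` are both slots, then linkage gives an `x` in `V(c)` with
`q(a,x) = t`, so exactly `|V(a) ∩ V(c)|` elements `x` of `V(c)` have `q(a,x) = t`; otherwise there is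
none.  Counting the pairs `(a,x)` with `x` in `V(c)` and `q(a,x) = t`, and the pairs with
`q(a,x) = 0`, in two ways gives the identity

  `∑_{a ∈ B or ac ∈ B} |V(a) ∩ V(c)| = ∑_{x ∈ V(c) ∩ B} |V(x)|`

(`identity`).  The right-hand side is at least `|G|`, which gives `|G| ≤ 2 |B| |V(c)|` (`card_le`), so
all value groups have index at most eight.  If `V(c)` and `V(-c)` both have index eight, the sum of
the two identities contradicts `|B| ≤ 6` (`no_pair`).  So outside a proper subgroup `L` which
contains all `y` with `V(y)` of index at most four, `-1 ∉ L`, `L` has index two and all value groups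
of elements of `L` have index at most four, and counting the orthogonal pairs between `L` and its
complement gives a contradiction (`no_half`).  Hence the elements with value groups of index at most
four generate `G`, and a starting result (`elem_bad`) applies. -/

set_option autoImplicit false

namespace Pool.Agent.Results.MP_d26ff6_al.FewNonSlots

open Pool.Agent.H315R3.ETC

theorem result (S : QData) (hS : IsQuat S) (hfin : Finite S.G) (t : S.Q) (ht : t ≠ S.zero)
    -- at most six elements are not slots of `t`
    (hB : {a : S.G | ∀ b : S.G, S.q a b ≠ t}.ncard ≤ 6) : Elem S :=
  Pool.Agent.U863.NS.elem_of_few hS ht hB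

end Pool.Agent.Results.MP_d26ff6_al.FewNonSlots
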