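import Mathlib
import Pool.Agent.U499.EPT.Elm

set_option autoImplicit false

/-! # MP_d26ff6_al: partitions of finite quaternionic structures

Let `S = (G,-1,q)` be a finite quaternionic structure with any `-1`.  We consider partitions of
`G / {1,-1}` into proper subgroups such that `q(a,b) = 0`, `a ≠ 1, -1`, holds only for `b` in the
part of `a`.  They exist if and only if `S` is a group extension `T[x]`, or a product of a group
extension `T[x]`, `-1 = 1` in `T`, with `𝕃₁` or `𝕃₁,₁` (for `|G / {1,-1}| ≥ 4`).  So a minimal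
counterexample to Q1 has no such partition; structures with such a partition are of elementary type
if all structures which are not larger than the parts are. -/

namespace Pool.Agent.Results.MP_d26ff6_al.PartitionCriterion

open Pool.Agent.H315R3.ETC

/-- `X` is a partition of `G/P` into proper subgroups: the members of `X` are subgroups `K ≠ G`
containing `P`, they cover `G`, and any two of them meet in `P` -/
structure IsPartition (S : QData) (P : Subgroup S.G) (X : Set (Subgroup S.G)) : Prop where
  le : ∀ K ∈ X, P ≤ K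
  ne_top : ∀ K ∈ X, K ≠ ⊤
  cover : ∀ x : S.G, ∃ K ∈ X, x ∈ K
  inf : ∀ K ∈ X, ∀ K' ∈ X, K ≠ K' → K ⊓ K' = P

/-- for `a ∉ P`, `q(a,b) = 0` holds only for `b` in the part of `a` -/
def Respects (S : QData) (P : Subgroup S.G) (X : Set (Subgroup S.G)) : Prop :=
  ∀ a : S.G, a ∉ P → ∀ K ∈ X, a ∈ K → ∀ b : S.G, S.q a b = S.zero → b ∈ K

/-- the group `{1, -1}` -/
def signs (S : QData) : Subgroup S.G := Subgroup.zpowers S.neg

/-- the restriction of `S` to a subgroup containing `-1` -/
def restriction (S : QData) (K : Subgroup S.G) (hK : S.neg ∈ K) : QData :=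
  ⟨K, S.Q, ⟨S.neg, hK⟩, fun a b => S.q a.1 b.1, S.zero⟩

theorem result (S : QData) (hS : IsQuat S) (hfin : Finite S.G) :
    -- the structures with a partition of `G / {1, -1}`
    (4 ≤ (signs S).index → List.TFAE
      [∃ X : Set (Subgroup S.G), IsPartition S (signs S) X ∧ Respects S (signs S) X,
       ∃ B : Subgroup S.G, S.neg ∈ B ∧ B ≠ ⊤ ∧ ∀ g : S.G, g ∉ B → ∀ e : S.G,
        S.q g e = S.zero → e = 1 ∨ e = S.neg ∨ e = g ∨ e = S.neg * g,
       (∃ T : QData, IsQuat T ∧ Iso (ext T) S) ∨ ∃ T : QData, IsQuat T ∧ T.neg = 1 ∧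
        (Iso (prod (ext T) L11) S ∨ Iso (prod (ext T) L1) S)]) ∧
    -- elementary type
    (∀ X : Set (Subgroup S.G), IsPartition S (signs S) X → Respects S (signs S) X →
      -- minimal counterexamples have no partition
      ((∀ T : QData, IsQuat T → Finite T.G → Nat.card T.G < Nat.card S.G → Elem T) → Elem S) ∧
      -- parts of bounded order
      (∀ N : ℕ, (∀ T : QData, IsQuat T → Finite T.G → Nat.card T.G ≤ N → Elem T) →
        (∀ K ∈ X, Nat.card K ≤ N) → Elem S) ∧
      -- parts with at most sixteen elements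
      ((∀ K ∈ X, Nat.card K ≤ 16) → Elem S)) ∧
    -- partitions modulo a subgroup `P` containing `-1`, with `q(a,b) ≠ 0` for `a ∉ P` and
    -- `b ∈ P`, `b ≠ 1`: iterated group extensions of the structure on one of the parts
    (∀ (P : Subgroup S.G) (X : Set (Subgroup S.G)), S.neg ∈ P → IsPartition S P X →
      Respects S P X → (∀ a : S.G, a ∉ P → ∀ b ∈ P, S.q a b = S.zero → b = 1) →
      ∃ A ∈ X, ∃ hA : S.neg ∈ A, IsQuat (restriction S A hA) ∧ ∃ k : ℕ, 1 ≤ k ∧
        2 ^ k * Nat.card A = Nat.card S.G ∧ Iso (ext^[k] (restriction S A hA)) S) := by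
  have conv : ∀ X : Set (Subgroup S.G), IsPartition S (signs S) X → Respects S (signs S) X →
      Pool.Agent.U499.EPT.Gen.GPart S X := by
    intro X hX hR
    refine ⟨fun K hK => hX.le K hK (Subgroup.mem_zpowers _), hX.ne_top, hX.cover, ?_, ?_⟩
    · intro K hK K' hK' hne x hx hx'
      have h1 : x ∈ signs S := by
        rw [← hX.inf K hK K' hK' hne]
        exact ⟨hx, hx'⟩
      exact Pool.Agent.U499.EPT.mem_zp hS h1
    · intro K hK a haK ha1 han b hab
      refine hR a (fun hc => ?_) K hK haK b hab
      exact (Pool.Agent.U499.EPT.mem_zp hS hc).elim ha1 han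
  have conv' : ∀ X : Set (Subgroup S.G), Pool.Agent.U499.EPT.Gen.GPart S X →
      IsPartition S (signs S) X ∧ Respects S (signs S) X := by
    intro X hX
    have hle : ∀ K ∈ X, signs S ≤ K := by
      intro K hK
      rw [signs, Subgroup.zpowers_le]
      exact hX.neg K hK
    refine ⟨⟨hle, hX.ne_top, hX.cover, ?_⟩, ?_⟩
    · intro K hK K' hK' hne
      apply le_antisymm
      · rintro x ⟨hx, hx'⟩
        rcases hX.inf K hK K' hK' hne x hx hx' with rfl | rfl
        · exact Subgroup.one_mem _
        · exact Subgroup.mem_zpowers _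
      · exact le_inf (hle K hK) (hle K' hK')
    · intro a ha K hK haK b hab
      refine hX.orth K hK a haK ?_ ?_ b hab
      · rintro rfl
        exact ha (Subgroup.one_mem _)
      · rintro rfl
        exact ha (Subgroup.mem_zpowers _)
  refine ⟨fun h4 => ?_, fun X hX hR => ?_, fun P X hP hX hR hst => ?_⟩
  · have key := Pool.Agent.U499.EPT.Gen.tfae_part hS h4
    tfae_have 1 → 3 := by
      rintro ⟨X, hX, hR⟩
      have hx : ∃ X : Set (Subgroup S.G), Pool.Agent.U499.EPT.Gen.GPart S X :=
        ⟨X, conv X hX hR⟩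
      exact (key.out 0 2).1 hx
    tfae_have 3 → 2 := fun h => (key.out 2 1).1 h
    tfae_have 2 → 1 := by
      intro h
      obtain ⟨X, hX⟩ := (key.out 1 0).1 h
      exact ⟨X, conv' X hX⟩
    tfae_finish
  · have hG := conv X hX hR
    refine ⟨fun hmin => ?_, fun N hN hXN => ?_, fun hXN => ?_⟩
    · have hpos : 0 < Nat.card S.G := Nat.card_pos
      refine Pool.Agent.U499.EPT.Gen.elem_of_parts hS hG (N := Nat.card S.G - 1)
        (fun T hT hf hc => hmin T hT hf (by omega)) fun K hK => ?_
      have h1 : Nat.card K ≤ Nat.card S.G := Subgroup.card_le_card_group K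
      have h2 : Nat.card K ≠ Nat.card S.G := fun e => hX.ne_top K hK
        (Subgroup.eq_top_of_card_eq K e)
      omega
    · exact Pool.Agent.U499.EPT.Gen.elem_of_parts hS hG hN hXN
    · exact Pool.Agent.U499.EPT.Gen.elem_of_parts hS hG
        (fun T hT hf hc => Pool.Agent.U499.EPT.Gen.elem16 hT hc) hXN
  · refine Pool.Agent.U499.EPT.iter_part hS (P := P) (X := X)
      ⟨hP, hX.le, hX.ne_top, hX.cover, ?_, ?_⟩
    · intro K hK K' hK' hne x hx hx'
      rw [← hX.inf K hK K' hK' hne]
      exact ⟨hx, hx'⟩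
    · intro a ha K hK haK b hab
      exact ⟨hR a ha K hK haK b hab, fun hb => hst a ha b hb hab⟩

end Pool.Agent.Results.MP_d26ff6_al.PartitionCriterion
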