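import Mathlib
import Pool.Agent.U499.ETV.Quo
import Pool.Agent.U499.ETV.Bas

set_option autoImplicit false

/-! # MP_d26ff6_al: quaternionic structures with value groups of order at most four

`V(a)` is the group of the `b` with `q(a,b) = 0`, and `R` is the radical. If `|V(a)| ≤ 4 |R|` for
all `a` outside `R` and `-R`, then the finite quaternionic structure is of elementary type. There is
no condition on `-1` and on `V(-1)`. -/

namespace Pool.Agent.Results.MP_d26ff6_al.SmallOverRadical

open Pool.Agent.H315R3.ETC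

/-- the radical `R`: the elements `r` with `q(r,b) = 0` for all `b` -/
def radical (S : QData) : Set S.G := {r | ∀ b : S.G, S.q r b = S.zero}

/-- the value group `V(a)`: the elements `b` with `q(a,b) = 0` -/
def V (S : QData) (a : S.G) : Set S.G := {b | S.q a b = S.zero}

/-- `|V(a)| ≤ 4 |R|` for all `a` outside `R` and `-R` -/
def Small (S : QData) : Prop := ∀ a : S.G, a ∉ radical S → S.neg * a ∉ radical S →
  (V S a).ncard ≤ 4 * (radical S).ncard

theorem result :
    -- value groups of order at most `4 |R|`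
    (∀ S : QData, IsQuat S → Finite S.G → Small S → Elem S) ∧
    -- the value groups: outside a subgroup `A` with `|A/R| ≤ 8` they consist of the cosets of `R`
    -- at `1`, `-1`, `a`, `-a`
    (∀ S : QData, IsQuat S → Finite S.G → Small S →
      ∃ A : Subgroup S.G, radical S ⊆ A ∧ S.neg ∈ A ∧ Nat.card A ≤ 8 * (radical S).ncard ∧
        ∀ a ∉ A, ∀ x ∈ V S a, ∃ r ∈ radical S,
          x = r ∨ x = S.neg * r ∨ x = a * r ∨ x = S.neg * a * r) ∧
    -- if `|V(a)| ≤ 4` for all `a ≠ 1`, the structure is an iterated group extension of a structure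
    -- with at most eight elements
    (∀ S : QData, IsQuat S → Finite S.G → (∀ a : S.G, a ≠ 1 → (V S a).ncard ≤ 4) →
      ∃ (T : QData) (k : ℕ), IsQuat T ∧ Finite T.G ∧ Nat.card T.G ≤ 8 ∧
        2 ^ k * Nat.card T.G = Nat.card S.G ∧ Iso (ext^[k] T) S) := by
  have key : ∀ S : QData, Small S → Pool.Agent.U499.ETV.RFour S := by
    intro S hs a h1 h2
    refine hs a ?_ ?_
    · intro hc
      obtain ⟨b, hb⟩ := h1
      exact hb (hc b)
    · intro hc
      obtain ⟨b, hb⟩ := h2
      exact hb (hc b)
  refine ⟨?_, ?_, ?_⟩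
  · intro S h hf hs
    exact Pool.Agent.U499.ETV.elem_of_rfour h (key S hs)
  · intro S h hf hs
    obtain ⟨A, h1, h2, h3, h4⟩ := Pool.Agent.U499.ETV.radical_shape h (key S hs)
    exact ⟨A, fun r hr => h1 r hr, h2, h3, fun a ha x hx => h4 a ha x hx⟩
  · intro S h hf hN
    exact Pool.Agent.U499.ETV.iter_four _ S h hf le_rfl hN

end Pool.Agent.Results.MP_d26ff6_al.SmallOverRadical
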